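import Pool.Agent.QSB.StmtsU
import Pool.Agent.Helper24_QSX.PRS

/-!
# Squad QSB (MP_dc0713_gt), row PNR: products of data with a rational basis with the property `NR`
(compare row PRB, `Helper20_QSB/PRB.lean`)
-/

set_option autoImplicit false

namespace Pool.Agent.QSB.H26

open Matrix Finset Pool.Agent.QSX Pool.Agent.QSN Pool.Agent.QSB
open Pool.Agent.QSX.H24P (p1 p2 ap p1_ap p2_ap coe_eq ap_p iL iR iL_apply iR_apply iL_ker iR_ker)

variable {X Y : Dat}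

/-- the root vectors of the product -/
def ee (R : RBas X) (S : RBas Y) :
    R.ι ⊕ S.ι → Matrix (Fin (X.m + Y.m)) (Fin (X.m + Y.m)) ℝ :=
  Sum.elim (iL X.m Y.m ∘ R.e) (iR X.m Y.m ∘ S.e)

theorem ee_inl (R : RBas X) (S : RBas Y) (l : R.ι) :
    ee R S (Sum.inl l) = bd (R.e l) 0 := rfl

theorem ee_inr (R : RBas X) (S : RBas Y) (l : S.ι) :
    ee R S (Sum.inr l) = bd 0 (S.e l) := rfl

theorem rat_ee (R : RBas X) (S : RBas Y) (l : R.ι ⊕ S.ι) (i j : Fin (X.m + Y.m)) :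
    ∃ q : ℚ, ee R S l i j = (q : ℝ) := by
  have h0 : ∃ q : ℚ, (0 : ℝ) = (q : ℝ) := ⟨0, Rat.cast_zero.symm⟩
  rcases l with l | l
  · rw [ee_inl]
    refine Fin.addCases (fun i => ?_) (fun i => ?_) i
    · refine Fin.addCases (fun j => ?_) (fun j => ?_) j
      · rw [bd_cc]; exact R.rat l i j
      · rw [bd_cn]; exact h0
    · refine Fin.addCases (fun j => ?_) (fun j => ?_) j
      · rw [bd_nc]; exact h0
      · rw [bd_nn]; exact h0
  · rw [ee_inr]
    refine Fin.addCases (fun i => ?_) (fun i => ?_) i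
    · refine Fin.addCases (fun j => ?_) (fun j => ?_) j
      · rw [bd_cc]; exact h0
      · rw [bd_cn]; exact h0
    · refine Fin.addCases (fun j => ?_) (fun j => ?_) j
      · rw [bd_nc]; exact h0
      · rw [bd_nn]; exact S.rat l i j

theorem span_ee (R : RBas X) (S : RBas Y) :
    Submodule.span ℝ (Set.range (ee R S)) = (X.prod Y).n := by
  rw [ee, Set.Sum.elim_range, Submodule.span_union, Set.range_comp, Set.range_comp,
    Submodule.span_image, Submodule.span_image, R.span_e, S.span_e]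
  apply le_antisymm
  · refine sup_le ?_ ?_
    · rintro _ ⟨x, hx, rfl⟩
      exact ⟨x, hx, 0, Y.n.zero_mem, rfl⟩
    · rintro _ ⟨y, hy, rfl⟩
      exact ⟨0, X.n.zero_mem, y, hy, rfl⟩
  · rintro _ ⟨x, hx, y, hy, rfl⟩
    have : bd x y = iL X.m Y.m x + iR X.m Y.m y := by
      rw [iL_apply, iR_apply, bd_add, add_zero, zero_add]
    rw [this]
    exact Submodule.add_mem_sup ⟨x, hx, rfl⟩ ⟨y, hy, rfl⟩

theorem lin_ee (R : RBas X) (S : RBas Y) : LinearIndependent ℝ (ee R S) := by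
  refine LinearIndependent.sum_type (R.lin.map' _ (iL_ker _ _)) (S.lin.map' _ (iR_ker _ _)) ?_
  rw [Submodule.disjoint_def]
  intro z h1 h2
  have h3 : z ∈ LinearMap.range (iL X.m Y.m) := by
    refine Submodule.span_le.2 ?_ h1
    rintro _ ⟨l, rfl⟩
    exact ⟨_, rfl⟩
  have h4 : z ∈ LinearMap.range (iR X.m Y.m) := by
    refine Submodule.span_le.2 ?_ h2
    rintro _ ⟨l, rfl⟩
    exact ⟨_, rfl⟩
  obtain ⟨x, hx⟩ := h3
  obtain ⟨y, hy⟩ := h4
  have h5 : bd x 0 = bd (0 : Matrix (Fin X.m) (Fin X.m) ℝ) y := by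
    rw [← iL_apply, ← iR_apply, hx, hy]
  rw [← hx, iL_apply, (bd_inj h5).1, bd_zero]

/-- the roots of the product -/
def rr (R : RBas X) (S : RBas Y) : R.ι ⊕ S.ι → (X.prod Y).b →ₗ[ℝ] ℝ :=
  Sum.elim (fun l => R.rt l ∘ₗ p1 X Y) (fun l => S.rt l ∘ₗ p2 X Y)

theorem rr_inl (R : RBas X) (S : RBas Y) (l : R.ι) (c : (X.prod Y).b) :
    rr R S (Sum.inl l) c = R.rt l (p1 X Y c) := rfl

theorem rr_inr (R : RBas X) (S : RBas Y) (l : S.ι) (c : (X.prod Y).b) :
    rr R S (Sum.inr l) c = S.rt l (p2 X Y c) := rfl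

theorem rr_inl_smul (R : RBas X) (S : RBas Y) {l l' : R.ι} {c : ℝ}
    (h : rr R S (Sum.inl l) = c • rr R S (Sum.inl l')) : R.rt l = c • R.rt l' := by
  ext a
  have := congrArg (fun f => f (ap X Y (a, 0))) h
  change R.rt l (p1 X Y (ap X Y (a, 0))) = c • R.rt l' (p1 X Y (ap X Y (a, 0))) at this
  rwa [p1_ap] at this

theorem rr_inr_smul (R : RBas X) (S : RBas Y) {l l' : S.ι} {c : ℝ}
    (h : rr R S (Sum.inr l) = c • rr R S (Sum.inr l')) : S.rt l = c • S.rt l' := by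
  ext a
  have := congrArg (fun f => f (ap X Y (0, a))) h
  change S.rt l (p2 X Y (ap X Y (0, a))) = c • S.rt l' (p2 X Y (ap X Y (0, a))) at this
  rwa [p2_ap] at this

theorem wt_ee (R : RBas X) (S : RBas Y) (l : R.ι ⊕ S.ι) (c : (X.prod Y).b) :
    (diagonal (c : Fin (X.prod Y).m → ℝ) : Matrix (Fin (X.m + Y.m)) (Fin (X.m + Y.m)) ℝ) *
      ee R S l - ee R S l *
      (diagonal (c : Fin (X.prod Y).m → ℝ) : Matrix (Fin (X.m + Y.m)) (Fin (X.m + Y.m)) ℝ) =
      rr R S l c • ee R S l := by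
  have hc : (diagonal (c : Fin (X.prod Y).m → ℝ) :
      Matrix (Fin (X.m + Y.m)) (Fin (X.m + Y.m)) ℝ) =
      bd (diagonal (p1 X Y c : Fin X.m → ℝ)) (diagonal (p2 X Y c : Fin Y.m → ℝ)) := by
    rw [bd_diagonal]; exact congrArg diagonal (coe_eq c)
  rw [hc]
  rcases l with l | l
  · rw [ee_inl, rr_inl, bd_mul, bd_mul, bd_sub, bd_smul, R.wt l, mul_zero, zero_mul, sub_zero,
      smul_zero]
  · rw [ee_inr, rr_inr, bd_mul, bd_mul, bd_sub, bd_smul, S.wt l, mul_zero, zero_mul, sub_zero,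
      smul_zero]

theorem sep_rr (R : RBas X) (S : RBas Y) (a : (X.prod Y).b) (h : ∀ l, rr R S l a = 0) :
    a = 0 := by
  have h1 : p1 X Y a = 0 := R.sep _ fun l => h (Sum.inl l)
  have h2 : p2 X Y a = 0 := S.sep _ fun l => h (Sum.inr l)
  rw [← ap_p a, h1, h2]
  exact map_zero _

/-! ### The scalar products -/

theorem bil_ap (X Y : Dat) (a : X.b) (b : Y.b) (c : (X.prod Y).b) :
    bil (X.prod Y) (ap X Y (a, b)) c = bil X a (p1 X Y c) + bil Y b (p2 X Y c) := by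
  rw [bil_apply, bil_apply, bil_apply]
  change ∑ i : Fin (X.m + Y.m), Fin.append (a : Fin X.m → ℝ) (b : Fin Y.m → ℝ) i *
    (c : Fin (X.prod Y).m → ℝ) i = _
  rw [Fin.sum_univ_add]
  refine congrArg₂ (· + ·) (Finset.sum_congr rfl fun i _ => ?_)
    (Finset.sum_congr rfl fun i _ => ?_)
  · rw [Fin.append_left]; rfl
  · rw [Fin.append_right]; rfl

theorem ip_left (μ : X.b →ₗ[ℝ] ℝ) (ν : (X.prod Y).b →ₗ[ℝ] ℝ) :
    ip (X.prod Y) (μ ∘ₗ p1 X Y) ν = ν (ap X Y (tv X μ, 0)) := by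
  have h := ip_trans (p1 X Y) (ap X Y ∘ₗ LinearMap.inl ℝ X.b Y.b) (r := 1) one_ne_zero
    (fun a c => by
      change bil (X.prod Y) (ap X Y (a, 0)) c = 1 * bil X a (p1 X Y c)
      rw [bil_ap, map_zero, LinearMap.zero_apply, add_zero, one_mul]) μ ν
  rw [inv_one, one_mul] at h
  exact h

theorem ip_right (μ : Y.b →ₗ[ℝ] ℝ) (ν : (X.prod Y).b →ₗ[ℝ] ℝ) :
    ip (X.prod Y) (μ ∘ₗ p2 X Y) ν = ν (ap X Y (0, tv Y μ)) := by
  have h := ip_trans (p2 X Y) (ap X Y ∘ₗ LinearMap.inr ℝ X.b Y.b) (r := 1) one_ne_zero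
    (fun a c => by
      change bil (X.prod Y) (ap X Y (0, a)) c = 1 * bil Y a (p2 X Y c)
      rw [bil_ap, map_zero, LinearMap.zero_apply, zero_add, one_mul]) μ ν
  rw [inv_one, one_mul] at h
  exact h

theorem ip_ll (R : RBas X) (S : RBas Y) (l l' : R.ι) :
    ip (X.prod Y) (rr R S (Sum.inl l)) (rr R S (Sum.inl l')) = ip X (R.rt l) (R.rt l') := by
  have h := ip_left (X := X) (Y := Y) (R.rt l) (rr R S (Sum.inl l'))
  rw [rr_inl, p1_ap, ip_eq] at h
  exact h.trans (ip_comm _ _)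

theorem ip_rr (R : RBas X) (S : RBas Y) (l l' : S.ι) :
    ip (X.prod Y) (rr R S (Sum.inr l)) (rr R S (Sum.inr l')) = ip Y (S.rt l) (S.rt l') := by
  have h := ip_right (X := X) (Y := Y) (S.rt l) (rr R S (Sum.inr l'))
  rw [rr_inr, p2_ap, ip_eq] at h
  exact h.trans (ip_comm _ _)

theorem ip_lr (R : RBas X) (S : RBas Y) (l : R.ι) (l' : S.ι) :
    ip (X.prod Y) (rr R S (Sum.inl l)) (rr R S (Sum.inr l')) = 0 := by
  have h := ip_left (X := X) (Y := Y) (R.rt l) (rr R S (Sum.inr l'))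
  rw [rr_inr, p2_ap, map_zero] at h
  exact h

theorem ip_rl (R : RBas X) (S : RBas Y) (l : S.ι) (l' : R.ι) :
    ip (X.prod Y) (rr R S (Sum.inr l)) (rr R S (Sum.inl l')) = 0 :=
  (ip_comm _ _).trans (ip_lr R S l' l)

/-- the rational basis of the product -/
noncomputable def rb (R : RBas X) (S : RBas Y) : RBas (X.prod Y) where
  ι := R.ι ⊕ S.ι
  fin := @instFintypeSum _ _ R.fin S.fin
  dec := @instDecidableEqSum _ _ R.dec S.dec
  e := ee R S
  rat := rat_ee R S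
  span_e := span_ee R S
  lin := lin_ee R S
  rt := rr R S
  wt := wt_ee R S
  sep := sep_rr R S

theorem nr_rb (R : RBas X) (S : RBas Y) (hR : R.NR) (hS : S.NR) : (rb R S).NR := by
  intro l
  change (∃ l' : R.ι ⊕ S.ι, (∀ c : ℝ, rr R S l' ≠ c • rr R S l) ∧
    ip (X.prod Y) (rr R S l) (rr R S l') ≠ 0) ∨
    ∀ l' : R.ι ⊕ S.ι, ip (X.prod Y) (rr R S l) (rr R S l') ≠ 0 → l' = l
  rcases l with l | l
  · rcases hR l with ⟨l', h1, h2⟩ | h
    · refine Or.inl ⟨Sum.inl l', fun c e => h1 c (rr_inl_smul R S e), ?_⟩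
      rw [ip_ll]; exact h2
    · refine Or.inr fun l' hl' => ?_
      rcases l' with l' | l'
      · rw [ip_ll] at hl'
        exact congrArg Sum.inl (h l' hl')
      · exact absurd (ip_lr R S l l') hl'
  · rcases hS l with ⟨l', h1, h2⟩ | h
    · refine Or.inl ⟨Sum.inr l', fun c e => h1 c (rr_inr_smul R S e), ?_⟩
      rw [ip_rr]; exact h2
    · refine Or.inr fun l' hl' => ?_
      rcases l' with l' | l'
      · exact absurd (ip_rl R S l l') hl'
      · rw [ip_rr] at hl'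
        exact congrArg Sum.inr (h l' hl')

/-- **PNR**. -/
theorem pnr : PnrStmt := by
  rintro X Y ⟨R, hR⟩ ⟨S, hS⟩
  exact ⟨rb R S, nr_rb R S hR hS⟩

end Pool.Agent.QSB.H26
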